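import Pool.Agent.N422.LR.ALL

/-!
# No sieve detects gaps longer than `(log Q)^(2+ε)`

Author: helper422.  All known lower bounds for the maximal gaps between primes come from `n` for which every `n + h`,
`h ≤ U`, has a small prime factor.  How long intervals of this kind can be detected by sieve methods?  By a theorem of
Iwaniec on the function of Jacobsthal a single residue class modulo `q` cannot give more than `U ≪ (log q)^2`.

Here we prove that this is, up to `ε` in the exponent, the limit of all sieves: if `w` is ANY real function of level `Q` (a sum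
of functions with periods `d ≤ Q`; no condition on sign, size or shape), if `U ≥ (log Q)^(2+ε)`, and if `w(n) ≤ 0` whenever
some `n + h`, `1 ≤ h ≤ U`, is free of prime factors `≤ Q`, then the mean of `w` is `≤ 0`.  So no lower bound sieve of level `Q`
detects an interval of length `(log Q)^(2+ε)` without `Q`-rough numbers, although for `U ≤ c log Q loglog Q / logloglog Q` such
intervals exist and are detected by residue classes modulo numbers `≤ Q` (Westzynthius, Erdős, Rankin).  For nonnegative
weights and the exact order of the mean number of rough numbers see `LimitsForLongGaps` (helper422).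

Proof.  One may assume that all moduli are squarefree (`LR/SQF`, helper703), so `w` is a function on `∏_{p ≤ Q} ℤ/p`.  Let `w⁺`
be its positive part, and `S_z(n)` the set of the `h ≤ U` with `n + h` free of primes `≤ z`.  For `z = y = (log Q)^(1+ε')` the
linear sieve gives `|S_y(n)| ≫ U/log y` for all `n` (`LG/LIN2`, helper31).  For a window `(z, z']` cut `[1, U]` into intervals
of length `≍ δ z`; every prime in the window divides at most one `n + h` in each of them.  The kernels `K_ζ` undo the hits of
numbers not hit before, with the rates `R (cosh (u t) - (ζ^u + ζ^(-u))/2)`, `u = log p/log Q`: `K_ζ` is the identity at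
`ζ = e^(-t)`, nonnegative on the circle, with an explicit density (`LR/KX`, helper37), and analytic (`LR/PX`, helper451).  The
inequality of Jensen at `e^(-t)`, summed over the states with `w > 0` (`WS/GEN`, helper704; `LR/NX`, helper793; `LR/WX`,
helper545), shows that with respect to `w⁺` at most `(1 + O(δ))(∑ 1/p)|S_z| + O((U/(δ z) + 1)(log Q/log z)/δ)` numbers are
hit in the window (`LR/HX`, helper394).  With the recursion over the scales (`LR/RX`, helper935) the mean of `w⁺ |S_Q|` is
positive if the mean of `w` is (`LR/FX`, helper910), but `w⁺ |S_Q| = 0` by hypothesis.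
-/

set_option autoImplicit false

open Finset

namespace Pool.Agent.Results.MP_c853c5_nt.AllSievesForLongGaps

/-- the weight `w(n) = ∑_{d ≤ Q} c_d(n mod d)`, an arbitrary real weight of level `Q` -/
noncomputable def weight (Q : ℕ) (c : ℕ → ℕ → ℝ) (n : ℕ) : ℝ := ∑ d ∈ Icc 1 Q, c d (n % d)

/-- the mean value of `F` over the period `Q!` -/
noncomputable def mean (Q : ℕ) (F : ℕ → ℝ) : ℝ := (∑ n ∈ range Q.factorial, F n) / (Q.factorial : ℝ)

/-- For every `ε > 0` there is `Q₀` such that for all `Q ≥ Q₀`, all `U ≥ (log Q)^(2+ε)` and every real weight `w` of level `Q`: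
if `w(n) ≤ 0` for all `n` for which some `n + h`, `1 ≤ h ≤ U`, has no prime factor `≤ Q`, then the mean of `w` is `≤ 0`. -/
theorem result : ∀ ε : ℝ, 0 < ε → ∃ Q₀ : ℕ, ∀ Q : ℕ, Q₀ ≤ Q → ∀ U : ℕ, Real.log Q ^ (2 + ε) ≤ U →
    ∀ c : ℕ → ℕ → ℝ, (∀ n, (∃ h, 1 ≤ h ∧ h ≤ U ∧ ∀ p, p.Prime → p ≤ Q → ¬ p ∣ n + h) → weight Q c n ≤ 0) →
      mean Q (weight Q c) ≤ 0 := by
  intro ε hε
  obtain ⟨Q₀, h⟩ := Pool.Agent.N422.LR.fx_all ε hε
  refine ⟨Q₀, fun Q hQ U hU c hc => h Q hQ U hU c fun n hn => hc n ?_⟩
  obtain ⟨x, hx⟩ := hn
  unfold Pool.Agent.N422.LG.Sv at hx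
  rw [mem_filter, mem_Icc] at hx
  refine ⟨x, hx.1.1, hx.1.2, fun p hp hpQ => hx.2 p ?_⟩
  rw [mem_filter, mem_Icc]
  exact ⟨⟨hp.one_lt.le, hpQ⟩, hp⟩

end Pool.Agent.Results.MP_c853c5_nt.AllSievesForLongGaps
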