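import Pool.Agent.N542.PC.Main
import Pool.Agent.N542.PB.GenPoly

set_option autoImplicit false

/-!
# Record prime gaps around several neighbouring values `f(p), f(p + 1), …, f(p + k)` of smooth functions

Let `c > 0` be a real number that is not an integer. How many of the numbers `n ^ c, (n + 1) ^ c, …`
can be in record gaps between primes at the same time? The `⌈c⌉`-th differences of `t ^ c` tend to zero,
so that `⌈c⌉` neighbouring values determine the next one up to `o(1)`: up to `⌈c⌉` neighbouring values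
are independent. We show that `⌈c⌉` neighbouring values, more generally the values at `n + s`, `s ∈ S`, for
any set `S` of at most `⌈c⌉` integers, are in record gaps at the same time, for many prime numbers
`n = p` of any residue class, for several smooth functions `f_j` (`1 ≤ j ≤ r`) at once, and with
arbitrary real polynomials added.

Precisely, let the `f_j` be smoothly varying (Bingham, Goldie, Teugels) with real indices
`c_j ∉ {0, 1, 2, …}` (for instance `t ^ (c_j)` plus a combination of lower real powers), let `u_j` be real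
numbers, the `v_j = c_j + u_j` incongruent modulo one, and `S_j` nonempty finite sets of integers with
`|S_j| < v_j + 1`. Let `b` be prime to `d`, `D` a natural number and `0 < ε ≤ 1 / 2`. There are `κ, δ > 0`
such that for all large `Z`, for ALL real `α_j` with `Z ^ (u_j - δ) ≤ |α_j| ≤ Z ^ (u_j + δ)` and ALL real
polynomials `P_{j,s}` of degree at most `D`, for which the numbers `α_j f_j(n + s) + P_{j,s}(n)`, `s ∈ S_j`,
are at least `Z ^ ε` on `(Z, (1 + ε) Z]`, at least `Z ^ (1 - ε)` primes `p ≡ b (mod d)` of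
`(Z, (1 + ε) Z]` are such that no prime lies within `κ log Z (log₂ Z)² log₄ Z / (log₃ Z)²` of any of
the numbers `α_j f_j(p + s) + P_{j,s}(p)`, `s ∈ S_j`, `1 ≤ j ≤ r`.

The case of one value (`S_j = {0}`) is `MP_711652_nt.SeveralSmoothFunctions`.

Proof (`Pool.Agent.N542.PC`). By Newton's formula an integer combination of the `f_j(t + s)`, `s ∈ S_j`, is
an integer combination of the differences `Δ^m f_j`; these are, up to a sign, smoothly varying with index
`c_j - m`; some coefficient with `m < |S_j|` does not vanish (Vandermonde). So the exponential sums over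
the primes of a residue class with the phases `∑ θ_{j,m} Δ^m f_j(p) + P(p)` have a power saving
(Vaughan's identity, as in `SeveralSmoothFunctions`). Then the joint covering criterion of helper961 is
applied to the primes which are not good.
-/

namespace Pool.Agent.Results.MP_c853c5_nt.NeighbouringValues

open Finset Filter Topology

/-- the record function `log x (log₂ x)² log₄ x / (log₃ x)²` -/
noncomputable def R (x : ℝ) : ℝ :=
  Real.log x * (Real.log (Real.log x)) ^ 2 * Real.log (Real.log (Real.log (Real.log x))) /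
    (Real.log (Real.log (Real.log x))) ^ 2

/-- `f` is smoothly varying with index `c`: it is positive and has derivatives of every order near
infinity, and `t ^ j f⁽ʲ⁾(t) / f(t)` tends to `c (c - 1) ⋯ (c - j + 1)` for every `j`. -/
def SmoothlyVarying (c : ℝ) (f : ℝ → ℝ) : Prop :=
  (∀ᶠ t in atTop, 0 < f t) ∧
  (∀ j : ℕ, ∀ᶠ t in atTop, DifferentiableAt ℝ (iteratedDeriv j f) t) ∧
  ∀ j : ℕ, Tendsto (fun t => t ^ j * iteratedDeriv j f t / f t) atTop
    (𝓝 (∏ i ∈ range j, (c - i)))

/-- The main theorem. -/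
theorem result (r : ℕ) (hr : 1 ≤ r) (c u : Fin r → ℝ) (f : Fin r → ℝ → ℝ)
    (hcn : ∀ j, ∀ n : ℕ, c j ≠ n) (hf : ∀ j, SmoothlyVarying (c j) (f j))
    (hinc : ∀ i j, i ≠ j → ∀ n : ℤ, (c i + u i) - (c j + u j) ≠ n)
    (S : Fin r → Finset ℤ) (hSne : ∀ j, (S j).Nonempty)
    (hS : ∀ j, ((S j).card : ℝ) < c j + u j + 1)
    (D d b : ℕ) (hd : 0 < d) (hb : b.Coprime d) (ε : ℝ) (hε : 0 < ε) (hε1 : ε ≤ 1 / 2) :
    ∃ κ δ : ℝ, 0 < κ ∧ 0 < δ ∧ ∀ᶠ Z : ℝ in atTop, ∀ (α : Fin r → ℝ)
      (P : Fin r → ℤ → Polynomial ℝ),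
      (∀ j, Z ^ (u j - δ) ≤ |α j| ∧ |α j| ≤ Z ^ (u j + δ)) → (∀ j s, (P j s).natDegree ≤ D) →
      (∀ j, ∀ s ∈ S j, ∀ n : ℕ, Z < n → (n : ℝ) ≤ (1 + ε) * Z →
        Z ^ ε ≤ α j * f j ((n : ℝ) + s) + (P j s).eval (n : ℝ)) →
      ∃ G : Finset ℕ, Z ^ (1 - ε) ≤ (G.card : ℝ) ∧ ∀ p ∈ G, p.Prime ∧ p ≡ b [MOD d] ∧
        Z < p ∧ (p : ℝ) ≤ (1 + ε) * Z ∧
        ∀ j, ∀ s ∈ S j, ∀ q : ℕ, q.Prime →
          κ * R Z < |(q : ℝ) - (α j * f j ((p : ℝ) + s) + (P j s).eval (p : ℝ))| := by
  have hSV : ∀ j, Pool.Agent.N542.PP.SV (c j) (fun k => iteratedDeriv k (f j)) := by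
    intro j
    refine ⟨?_, ?_, ?_⟩
    · simpa only [iteratedDeriv_zero] using (hf j).1
    · intro k
      filter_upwards [(hf j).2.1 k] with t ht
      rw [iteratedDeriv_succ]
      exact ht.hasDerivAt
    · intro k
      have h1 := (hf j).2.2 k
      rw [Pool.Agent.N542.PP.fall]
      simpa only [iteratedDeriv_zero] using h1
  have h := Pool.Agent.N542.PC.consecutive hr c u (fun j k => iteratedDeriv k (f j)) hSV hcn hinc S
    hSne hS D d b hd hb ε hε hε1
  simp only [iteratedDeriv_zero] at h
  exact h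

/-- `t ^ c` plus a combination of lower real powers is smoothly varying with index `c`. -/
theorem smoothlyVarying_genPoly (c : ℝ) (n : ℕ) (a b : Fin n → ℝ) (hb : ∀ i, b i < c) :
    SmoothlyVarying c (fun t => t ^ c + ∑ i, a i * t ^ b i) :=
  Pool.Agent.N542.PB.genPoly_sv c n a b hb

end Pool.Agent.Results.MP_c853c5_nt.NeighbouringValues
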