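import Pool.Agent.N39.RG.Pairs
import Pool.Agent.N39.RG.BiasPoly

set_option autoImplicit false

/-! # Record prime gaps at the values of arbitrary families of polynomials modulo `p` on arbitrary sets -/

namespace Pool.Agent.Results.MP_c853c5_nt.PolynomialFamilies

open Finset Polynomial Filter

/-- the record scale for gaps between primes -/
noncomputable def f (x : ℝ) : ℝ :=
  Real.log x * (Real.log (Real.log x)) ^ 2 * Real.log (Real.log (Real.log (Real.log x))) /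
    (Real.log (Real.log (Real.log x))) ^ 2

open scoped Classical in
/-- Let `r, E ≥ 0` and `0 < δ ≤ 1`. There are `κ > 0` and `p₀` such that for every prime `p ≥ p₀` and all real
`ε`: let `X` be any finite index set, `Y` any set of at least `p^(1/2 + 2ε)` residues modulo `p`, `P(x, j)` any
polynomials over `F_p` of degree at most `p^(δ/4)` (`x ∈ X`, `1 ≤ j ≤ r`), `u` and `v` any functions on `X`
and on `F_p` with values in `F_p^r`, such that for every `α ≠ 0` in `F_p^r` the combination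
`∑ α j (P(x, j) - P(x', j))` is constant for at most `|X|² |Y| / p^(1 + 2ε)` pairs `(x, x')` in `X × X`. Then
for every box `∏ (M j, M j + L j]` with `p^δ ≤ L j ≤ p` of volume at least `p^(r - ε + δ)` there are at least
`p^(-δ) |X| |Y| ∏ (L j / p)` pairs `(x, y)` in `X × Y` such that the box contains an integer vector `z`,
`z j ≡ P(x, j)(y) + u(x) j + v(y) j` modulo `p`, with the following property: for all coprime exponents
`e j ≤ E` every integer at distance at most `κ f(p)` from `∏ (z j)^(e j)` has a prime factor at most `p^δ`. -/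
theorem result (r E : ℕ) (δ : ℝ) (hδ : 0 < δ) (hδ1 : δ ≤ 1) :
    ∃ κ : ℝ, 0 < κ ∧ ∃ p₀ : ℕ, ∀ p : ℕ, p.Prime → p₀ ≤ p →
    ∀ (ε : ℝ) (I : Type) (X : Finset I) (Y : Finset (ZMod p)) (P : I → Fin r → (ZMod p)[X])
      (u : I → Fin r → ZMod p) (v : ZMod p → Fin r → ZMod p), X.Nonempty →
    (p : ℝ) ^ (1 / 2 + 2 * ε) ≤ Y.card →
    (∀ x ∈ X, ∀ j, ((P x j).natDegree : ℝ) ≤ (p : ℝ) ^ (δ / 4)) →
    (∀ α : Fin r → ZMod p, α ≠ 0 →
      (((X ×ˢ X).filter (fun q =>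
          (∑ j, C (α j) * (P q.1 j - P q.2 j)).natDegree = 0)).card : ℝ) *
        (p : ℝ) ^ (1 + 2 * ε) ≤ (X.card : ℝ) ^ 2 * Y.card) →
    ∀ (M : Fin r → ℤ) (L : Fin r → ℕ), (∀ j, (p : ℝ) ^ δ ≤ L j ∧ L j ≤ p) →
      (p : ℝ) ^ ((r : ℝ) - ε + δ) ≤ ∏ j, (L j : ℝ) →
    (p : ℝ) ^ (-δ) * (X.card * Y.card * ∏ j, ((L j : ℝ) / p)) ≤
      (((X ×ˢ Y).filter (fun q => ∃ z : Fin r → ℤ,
        (∀ j, M j < z j ∧ z j ≤ M j + L j ∧
          ((z j : ℤ) : ZMod p) = (P q.1 j).eval q.2 + u q.1 j + v q.2 j) ∧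
        ∀ e : Fin r → ℕ, (∀ j, e j ≤ E) → Finset.univ.gcd e = 1 →
          ∀ m : ℤ, |(m : ℝ) - ∏ j, (z j : ℝ) ^ e j| ≤ κ * f p →
            ∃ l : ℕ, l.Prime ∧ (l : ℝ) ≤ (p : ℝ) ^ δ ∧ (l : ℤ) ∣ m)).card : ℝ) := by
  obtain ⟨κ, hκ, p₁, h⟩ := Pool.Agent.N39.RG.mainE r E (δ / 2) (by linarith) (by linarith)
  have hev : ∀ᶠ x : ℝ in atTop, 2 ≤ x ^ (δ / 4) :=
    (tendsto_rpow_atTop (by positivity)).eventually_ge_atTop 2
  obtain ⟨x₀, hx₀⟩ := eventually_atTop.mp hev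
  obtain ⟨p₂, hp₂⟩ := exists_nat_ge x₀
  refine ⟨κ, hκ, max p₁ p₂, ?_⟩
  intro p hp hpp ε I X Y P u v hX hY hD hT M L hL hV
  have : Fact p.Prime := ⟨hp⟩
  have g2 : 2 ≤ (p : ℝ) ^ (δ / 4) :=
    hx₀ p (hp₂.trans (by exact_mod_cast (le_max_right _ _).trans hpp))
  have hp1 : (1 : ℝ) < p := by exact_mod_cast hp.one_lt
  have hp0 : (0 : ℝ) < p := by linarith
  have hmo : ∀ x y : ℝ, x ≤ y → (p : ℝ) ^ x ≤ (p : ℝ) ^ y := fun x y h =>
    Real.rpow_le_rpow_of_exponent_le hp1.le h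
  have hXc : (0 : ℝ) < X.card := by exact_mod_cast hX.card_pos
  have hYc : (0 : ℝ) < Y.card := lt_of_lt_of_le (Real.rpow_pos_of_pos hp0 _) hY
  have hYne : Y.Nonempty := by
    rw [← card_pos]
    exact_mod_cast hYc
  have hScard : (((X ×ˢ Y).card : ℕ) : ℝ) = X.card * Y.card := by
    rw [card_product]; push_cast; rfl
  set D := ⌊(p : ℝ) ^ (δ / 4)⌋₊ with hDdef
  have hDle : (D : ℝ) ≤ (p : ℝ) ^ (δ / 4) := Nat.floor_le (by positivity)
  have hDp : D < p := by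
    have h1 : (p : ℝ) ^ (δ / 4) < (p : ℝ) ^ (1 : ℝ) :=
      Real.rpow_lt_rpow_of_exponent_lt hp1 (by linarith)
    rw [Real.rpow_one] at h1
    exact_mod_cast hDle.trans_lt h1
  have hDeg : ∀ x ∈ X, ∀ j, (P x j).natDegree ≤ D := fun x hx j => Nat.le_floor (hD x hx j)
  have key := h p ((le_max_left _ _).trans hpp) (ε - δ / 4) (I × ZMod p) (X ×ˢ Y)
    (fun q j => (P q.1 j).eval q.2 + u q.1 j + v q.2 j) (hX.product hYne) (by
      intro α hα
      have h1 := Pool.Agent.N39.RG.bias_poly_sq X r D P hDeg hDp u Y v α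
      have h2 := hT α hα
      rw [hScard]
      apply le_of_sq_le_sq _ (by positivity)
      refine h1.trans ?_
      obtain ⟨N, hN⟩ : ∃ N : ℝ, N = (((X ×ˢ X).filter (fun q =>
          (∑ j, C (α j) * (P q.1 j - P q.2 j)).natDegree = 0)).card : ℝ) := ⟨_, rfl⟩
      obtain ⟨a, ha⟩ : ∃ a : ℝ, a = (p : ℝ) ^ (2 * ε) := ⟨_, rfl⟩
      have ha0 : 0 < a := by rw [ha]; exact Real.rpow_pos_of_pos hp0 _
      rw [← hN] at h2
      rw [Real.rpow_add hp0, Real.rpow_one, ← ha] at h2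
      have h3 : Real.sqrt p * a ≤ Y.card := by
        rw [Real.sqrt_eq_rpow, ha, ← Real.rpow_add hp0]
        exact hY
      have h4 : (D : ℝ) + 1 ≤ (p : ℝ) ^ (δ / 2) := by
        have h5 : (p : ℝ) ^ (δ / 2) = (p : ℝ) ^ (δ / 4) * (p : ℝ) ^ (δ / 4) := by
          rw [← Real.rpow_add hp0]; congr 1; ring
        rw [h5]
        nlinarith
      have h6 : ((p : ℝ) ^ (-(ε - δ / 4))) ^ 2 = (p : ℝ) ^ (δ / 2) / a := by
        rw [ha, ← Real.rpow_sub hp0, ← Real.rpow_natCast, ← Real.rpow_mul hp0.le]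
        congr 1
        push_cast
        ring
      rw [mul_pow, mul_pow, h6, ← mul_div_assoc, le_div_iff₀ ha0]
      have h7 : (N * p + (X.card : ℝ) ^ 2 * (D * Real.sqrt p)) * a ≤
          (X.card : ℝ) ^ 2 * Y.card * (p : ℝ) ^ (δ / 2) := by
        calc (N * p + (X.card : ℝ) ^ 2 * (D * Real.sqrt p)) * a
            = N * (p * a) + (X.card : ℝ) ^ 2 * (D * (Real.sqrt p * a)) := by ring
          _ ≤ (X.card : ℝ) ^ 2 * Y.card + (X.card : ℝ) ^ 2 * (D * Y.card) := by gcongr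
          _ = (X.card : ℝ) ^ 2 * Y.card * (D + 1) := by ring
          _ ≤ _ := by gcongr
      calc _ = (Y.card : ℝ) * ((N * p + (X.card : ℝ) ^ 2 * (D * Real.sqrt p)) * a) := by
            rw [hN]
            ring
        _ ≤ Y.card * ((X.card : ℝ) ^ 2 * Y.card * (p : ℝ) ^ (δ / 2)) := by gcongr
        _ = _ := by ring) M L (fun j => (hL j).2)
    (fun j => (hmo _ _ (by linarith)).trans (hL j).1)
    ((hmo _ _ (by linarith)).trans hV)
  rw [hScard] at key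
  have hQ0 : 0 ≤ (X.card : ℝ) * Y.card * ∏ j, ((L j : ℝ) / p) :=
    mul_nonneg (by positivity) (prod_nonneg fun j _ => by positivity)
  refine (mul_le_mul_of_nonneg_right (hmo (-δ) (-(δ / 2)) (by linarith)) hQ0).trans (key.trans ?_)
  have h5 := Pool.Agent.N39.RG.fam_to_index (X ×ˢ Y)
    (fun q : I × ZMod p => fun j => (P q.1 j).eval q.2 + u q.1 j + v q.2 j) M L
    (fun j => (hL j).2) (fun z => ∀ e : Fin r → ℕ, (∀ i, e i ≤ E) → Finset.univ.gcd e = 1 →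
        Pool.Agent.N39.RG.Far (∏ i, z i ^ e i) (κ * Pool.Agent.W147.PS.ff p) ((p : ℝ) ^ (δ / 2)))
  refine le_trans (Nat.cast_le.mpr h5) ?_
  rw [Nat.cast_le]
  apply card_le_card
  intro q hq
  rw [mem_filter] at hq ⊢
  obtain ⟨h6, z, h7, h8⟩ := hq
  refine ⟨h6, z, h7, fun e he hg m hm => ?_⟩
  obtain ⟨l, hl, hl2, hl3⟩ := h8 e he hg m (by
    push_cast
    exact hm)
  exact ⟨l, hl, hl2.trans (hmo _ _ (by linarith)), hl3⟩

end Pool.Agent.Results.MP_c853c5_nt.PolynomialFamilies
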