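import Pool.Agent.N389.CI.Main

/-!
# Record prime gaps at the solutions of systems of additive congruences modulo primes

`ff x = log x (log₂ x)² log₄ x / (log₃ x)²` is the record scale of the starting library. Let `r ≥ 1`, `K`,
`E` and `0 < δ ≤ 1` be fixed and let `p` be a large prime. Consider a system of `K` congruences
`f₍k,1₎(x₁) + ... + f₍k,r₎(x_r) ≡ n_k (mod p)` with polynomials `f₍k,i₎` modulo `p` of degree at most `D`
(which may depend on `p`) such that for each `i` all nontrivial linear combinations of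
`f₍1,i₎, ..., f₍K,i₎` have degree at least two (for instance `x_i^2, ..., x_i^(K+1)`, or `K = 1` and
`a_i x_i^D`, `D ≥ 2`). Then every box with sides between `p^δ` and `p` and of volume at least
`D^r p^(r/2 + K + δ)` contains at least `volume / p^(K + δ)` integer solutions `x` with the following
property: EVERY integer at distance at most `c ff(p)` from any of the products `x₁^(e₁) ⋯ x_r^(e_r)` with
coprime exponents `e_i ≤ E` (in particular from any of the coordinates of `x`) has a prime factor at most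
`p^δ`. (The condition on the volume implies `r > 2 K`.)

Proof: orthogonality and Weil's bound give square root cancellation in every variable in the
exponential sums over the solutions; a criterion for families of vectors modulo `p` of any size and with
any bound for the exponential sums (`Pool.Agent.N389.CI.resid2`) is derived from the joint covering theorem
for well distributed families of integer vectors `Pool.Agent.N725.JC.fmono`.
-/

set_option autoImplicit false

namespace Pool.Agent.Results.MP_c853c5_nt.SystemsModuloPrimes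

open Finset Filter Polynomial

/-- the record scale for gaps between primes -/
noncomputable def ff (x : ℝ) : ℝ :=
  Real.log x * (Real.log (Real.log x)) ^ 2 * Real.log (Real.log (Real.log (Real.log x))) /
    (Real.log (Real.log (Real.log x))) ^ 2

/-- every integer at distance at most `c ff(p)` from `N` has a prime factor at most `p ^ δ` -/
def Desert (p : ℕ) (c δ : ℝ) (N : ℤ) : Prop :=
  ∀ m : ℤ, |(m : ℝ) - N| ≤ c * ff p → ∃ l : ℕ, l.Prime ∧ (l : ℝ) ≤ (p : ℝ) ^ δ ∧ (l : ℤ) ∣ m

/-- Record prime gaps at the solutions of systems of additive congruences modulo primes. -/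
theorem result (r K E : ℕ) (hr : 1 ≤ r) (δ : ℝ) (hδ : 0 < δ) (hδ1 : δ ≤ 1) :
    ∃ c : ℝ, 0 < c ∧ ∀ᶠ p : ℕ in atTop, p.Prime → ∀ D : ℕ, 1 ≤ D →
      ∀ f : Fin K → Fin r → (ZMod p)[X], (∀ k i, (f k i).natDegree ≤ D) →
      (∀ t : Fin K → ZMod p, t ≠ 0 → ∀ i, 2 ≤ (∑ k, C (t k) * f k i).natDegree) →
      ∀ (n : Fin K → ZMod p) (M : Fin r → ℤ) (L : Fin r → ℕ), (∀ i, (p : ℝ) ^ δ ≤ L i ∧ L i ≤ p) →
      (D : ℝ) ^ r * (p : ℝ) ^ ((r : ℝ) / 2 + K + δ) ≤ ∏ i, (L i : ℝ) →
      (∏ i, (L i : ℝ)) / (p : ℝ) ^ (K + δ) ≤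
        ({x : Fin r → ℤ | (∀ i, M i < x i ∧ x i ≤ M i + L i) ∧
          (∀ k, ∑ i, (f k i).eval ((x i : ℤ) : ZMod p) = n k) ∧
          ∀ e : Fin r → ℕ, (∀ i, e i ≤ E) → Finset.univ.gcd e = 1 →
            Desert p c δ (∏ i, x i ^ e i)}.ncard : ℝ) := by
  classical
  obtain ⟨c, hc, hev⟩ := Pool.Agent.N389.CI.main r K E hr δ hδ hδ1
  refine ⟨c, hc, ?_⟩
  filter_upwards [hev] with p hp
  intro hpp D hD1 f hD hf n M L hL hV
  have : Fact p.Prime := ⟨hpp⟩
  have h1 := hp D hD1 f hD hf n M L hL hV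
  refine h1.trans ?_
  obtain ⟨T, hT⟩ : ∃ T, T = ((Pool.Agent.N389.CI.pts r K f n).filter (fun x =>
      (∀ i, M i < Pool.Agent.N725.JC.rep (M i) (L i) (x i) ∧
          Pool.Agent.N725.JC.rep (M i) (L i) (x i) ≤ M i + L i ∧
          ((Pool.Agent.N725.JC.rep (M i) (L i) (x i) : ℤ) : ZMod p) = x i) ∧
        ∀ e : Fin r → ℕ, (∀ i, e i ≤ E) → Finset.univ.gcd e = 1 → ∀ m : ℤ,
          |(m : ℝ) - ∏ i, (Pool.Agent.N725.JC.rep (M i) (L i) (x i) : ℝ) ^ e i| ≤
            c * Pool.Agent.H256R2.SC.ff p →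
            ∃ l : ℕ, l.Prime ∧ (l : ℝ) ≤ (p : ℝ) ^ δ ∧ (l : ℤ) ∣ m)) := ⟨_, rfl⟩
  have hfin : {x : Fin r → ℤ | (∀ i, M i < x i ∧ x i ≤ M i + L i) ∧
      (∀ k, ∑ i, (f k i).eval ((x i : ℤ) : ZMod p) = n k) ∧
      ∀ e : Fin r → ℕ, (∀ i, e i ≤ E) → Finset.univ.gcd e = 1 →
        Desert p c δ (∏ i, x i ^ e i)}.Finite := by
    apply Set.Finite.subset (Fintype.piFinset fun j => Ioc (M j) (M j + L j)).finite_toSet
    intro x hx
    rw [mem_coe, Fintype.mem_piFinset]
    intro j
    rw [mem_Ioc]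
    exact hx.1 j
  rw [← hT, ← Set.ncard_coe_finset, Nat.cast_le]
  refine Set.ncard_le_ncard_of_injOn (fun x i => Pool.Agent.N725.JC.rep (M i) (L i) (x i)) ?_ ?_ hfin
  · intro x hx
    rw [mem_coe, hT, mem_filter] at hx
    obtain ⟨hx1, hx2, hx3⟩ := hx
    refine ⟨fun i => ⟨(hx2 i).1, (hx2 i).2.1⟩, ?_, ?_⟩
    · intro k
      unfold Pool.Agent.N389.CI.pts at hx1
      rw [mem_filter] at hx1
      rw [← hx1.2 k]
      refine Finset.sum_congr rfl fun i _ => ?_
      rw [(hx2 i).2.2]
    · intro e he hg m hm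
      refine hx3 e he hg m ?_
      push_cast at hm
      exact hm
  · intro x hx y hy hxy
    rw [mem_coe, hT, mem_filter] at hx hy
    funext i
    have h2 := congrFun hxy i
    simp only at h2
    rw [← (hx.2.1 i).2.2, ← (hy.2.1 i).2.2, h2]

end Pool.Agent.Results.MP_c853c5_nt.SystemsModuloPrimes
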